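import Pool.Agent.Helper38.MR.Spec

/-! Module G: planar geometry of the instances. -/

set_option autoImplicit false

namespace Pool.Agent.Helper34.MR

open Pool.Agent.Helper38.MR
open Pool.Agent.Helper68.LP (pert padded sc near)

/-- the top coordinate -/
def Ytop (m : ℕ) : ℕ := 10 * (2 * nb m + 3) + 2

/-- displacement of the lattice point `q` -/
def tau {m : ℕ} (ε : Fin m ⊕ Edge m ≃ Fin (nb m)) (x : Graph m) (q : ℕ × ℕ) : ℤ :=
  ∑ j ∈ Finset.range q.2, ∑ c : Fin (nb m), if (q.1, j) = tK (nb m) c then topOf ε x c else 0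

theorem pert_top {m : ℕ} (ε : Fin m ⊕ Edge m ≃ Fin (nb m)) (x : Graph m) (h v : ℕ → ℕ → ℤ)
    (M : ℤ) (q : ℕ × ℕ) : pert h (addTop v (topOf ε x)) M q =
      ((pert h v M q).1, (pert h v M q).2 + tau ε x q) := by
  unfold pert addTop tau
  refine Prod.ext rfl ?_
  simp only [Finset.sum_add_distrib]
  ring

theorem tau_lt {m : ℕ} (ε : Fin m ⊕ Edge m ≃ Fin (nb m)) (x : Graph m) (q : ℕ × ℕ)
    (hq : q.2 < Ytop m) : tau ε x q = 0 := by
  unfold tau
  apply Finset.sum_eq_zero
  intro j hj
  apply Finset.sum_eq_zero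
  intro c _
  rw [if_neg]
  intro h
  have h2 := congrArg Prod.snd h
  simp only [tK] at h2
  rw [Finset.mem_range] at hj
  unfold Ytop at hq
  omega

theorem tau_cases {m : ℕ} (ε : Fin m ⊕ Edge m ≃ Fin (nb m)) (q : ℕ × ℕ) (hq : q.2 ≤ Ytop m) :
    (∀ x, tau ε x q = 0) ∨ (q.2 = Ytop m ∧ ∃ e : Edge m, ∀ x : Graph m,
      tau ε x q = if x e = true then 0 else 1) := by
  rcases Nat.lt_or_ge q.2 (Ytop m) with h | h
  · exact Or.inl fun x => tau_lt ε x q h
  have hY : q.2 = Ytop m := le_antisymm hq h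
  have key : ∀ x, tau ε x q = ∑ c : Fin (nb m),
      if q.1 = 10 * (2 * ((c : ℕ) + 1) + 1) + 1 then topOf ε x c else 0 := by
    intro x
    unfold tau
    rw [Finset.sum_comm]
    apply Finset.sum_congr rfl
    intro c _
    by_cases hc : q.1 = 10 * (2 * ((c : ℕ) + 1) + 1) + 1
    · rw [if_pos hc, Finset.sum_eq_single (10 * (2 * nb m + 3) + 1)]
      · rw [if_pos]
        simp only [tK, hc]
      · intro j _ hj
        rw [if_neg]
        intro h'
        have h2 := congrArg Prod.snd h'
        simp only [tK] at h2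
        exact hj h2
      · intro hj
        exfalso
        apply hj
        rw [Finset.mem_range, hY]
        unfold Ytop
        omega
    · rw [if_neg hc]
      apply Finset.sum_eq_zero
      intro j _
      rw [if_neg]
      intro h'
      have h2 := congrArg Prod.fst h'
      simp only [tK] at h2
      exact hc h2
  by_cases hex : ∃ c : Fin (nb m), q.1 = 10 * (2 * ((c : ℕ) + 1) + 1) + 1
  · obtain ⟨c, hc⟩ := hex
    have key2 : ∀ x, tau ε x q = topOf ε x c := by
      intro x
      rw [key x, Finset.sum_eq_single c]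
      · rw [if_pos hc]
      · intro d _ hd
        rw [if_neg]
        intro h'
        apply hd
        apply Fin.ext
        omega
      · intro h'
        exact absurd (Finset.mem_univ c) h'
    rcases hεc : ε.symm c with a | e
    · left
      intro x
      rw [key2 x]
      unfold topOf
      rw [hεc]
    · right
      refine ⟨hY, e, fun x => ?_⟩
      rw [key2 x]
      unfold topOf
      rw [hεc]
  · left
    intro x
    rw [key x]
    apply Finset.sum_eq_zero
    intro c _
    rw [if_neg]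
    intro h'
    exact hex ⟨c, h'⟩

theorem tau_mem {m : ℕ} (ε : Fin m ⊕ Edge m ≃ Fin (nb m)) (x : Graph m) (q : ℕ × ℕ)
    (hq : q.2 ≤ Ytop m) : tau ε x q = 0 ∨ tau ε x q = 1 := by
  rcases tau_cases ε q hq with h | ⟨-, e, h⟩
  · exact Or.inl (h x)
  · rw [h x]
    split_ifs
    · exact Or.inl rfl
    · exact Or.inr rfl

theorem simple_tau {m : ℕ} (ε : Fin m ⊕ Edge m ≃ Fin (nb m)) (q : ℕ × ℕ) (hq : q.2 ≤ Ytop m)
    (g : ℤ → ℝ) (hg : q.2 = Ytop m → g 0 ≤ g 1) : Simple (fun x => g (tau ε x q)) := by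
  rcases tau_cases ε q hq with h | ⟨hY, e, h⟩
  · left
    exact ⟨g 0, fun x => by beta_reduce; rw [h x]⟩
  · right
    refine ⟨e, g 0, g 1, hg hY, fun x => ?_⟩
    beta_reduce
    rw [h x]
    split_ifs <;> rfl

theorem dst_comm (p q : ℤ × ℤ) : dst p q = dst q p := by
  unfold dst
  congr 1
  push_cast
  ring

theorem dst_mono {p q p' q' : ℤ × ℤ}
    (h : (p.1 - q.1) ^ 2 + (p.2 - q.2) ^ 2 ≤ (p'.1 - q'.1) ^ 2 + (p'.2 - q'.2) ^ 2) :
    dst p q ≤ dst p' q' := by
  unfold dst
  apply Real.sqrt_le_sqrt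
  exact_mod_cast h

theorem sum_bd (f : ℕ → ℤ) (Cb k N : ℕ) (hf : ∀ j, |f j| ≤ Cb) (hk : k ≤ N) :
    |∑ j ∈ Finset.range k, f j| ≤ N * Cb := by
  refine (Finset.abs_sum_le_sum_abs _ _).trans ?_
  refine (Finset.sum_le_sum fun j _ => hf j).trans ?_
  rw [Finset.sum_const, Finset.card_range, nsmul_eq_mul]
  have : (k : ℤ) ≤ N := by exact_mod_cast hk
  exact mul_le_mul_of_nonneg_right this (by positivity)

/-- the claim for one pair -/
def Cl {n t m : ℕ} (L : ℕ) (P : Graph m → Fin n → ℤ × ℤ) (i₀ : Fin n) (a b : Fin (n + t)) : Prop :=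
  ∃ D : Graph m → ℝ, Simple D ∧ ∀ x, dst (padded L t i₀ (P x) a) (padded L t i₀ (P x) b) ≤ D x ∧
    D x ≤ dst (padded (L + 1) t i₀ (P x) a) (padded (L + 1) t i₀ (P x) b)

theorem Cl.symm {n t m L : ℕ} {P : Graph m → Fin n → ℤ × ℤ} {i₀ : Fin n} {a b : Fin (n + t)}
    (h : Cl L P i₀ a b) : Cl L P i₀ b a := by
  obtain ⟨D, hD, h⟩ := h
  refine ⟨D, hD, fun x => ?_⟩
  rw [dst_comm (padded L t i₀ (P x) b), dst_comm (padded (L + 1) t i₀ (P x) b)]
  exact h x

theorem pad_left {n t : ℕ} (S : ℕ) (i₀ : Fin n) (P : Fin n → ℤ × ℤ) (i : Fin n) :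
    padded S t i₀ P (Fin.castAdd t i) = (S * (P i).1, S * (P i).2) := by
  unfold padded
  rw [Fin.append_left]
  rfl

theorem pad_right {n t : ℕ} (S : ℕ) (i₀ : Fin n) (P : Fin n → ℤ × ℤ) (j : Fin t) :
    padded S t i₀ P (Fin.natAdd n j) = (S * (P i₀).1 + (j + 1), S * (P i₀).2) := by
  unfold padded
  rw [Fin.append_right]
  rfl

/-- the basic inequality between the two scales -/
theorem scale_le (L w H V : ℤ) (h0 : 0 ≤ w) (hL : w ≤ L) :
    (L * H - w) ^ 2 + (L * V) ^ 2 ≤ ((L + 1) * H - w) ^ 2 + ((L + 1) * V) ^ 2 := by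
  have h1 : 0 ≤ (2 * L + 1) * V ^ 2 := by
    have : 0 ≤ 2 * L + 1 := by linarith
    positivity
  have h2 : 0 ≤ (2 * L + 1) * H ^ 2 - 2 * w * H := by
    rcases le_or_gt H 0 with h | h
    · have h3 : 0 ≤ (2 * L + 1) * H ^ 2 := mul_nonneg (by linarith) (sq_nonneg H)
      nlinarith
    · have h4 : H ≤ H ^ 2 := by nlinarith
      have h5 : w * H ≤ L * H ^ 2 := mul_le_mul hL h4 h.le (by linarith)
      have h6 : 0 ≤ H ^ 2 := sq_nonneg H
      linarith
  have e : ((L + 1) * H - w) ^ 2 + ((L + 1) * V) ^ 2 = ((L * H - w) ^ 2 + (L * V) ^ 2) +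
      ((2 * L + 1) * V ^ 2 + ((2 * L + 1) * H ^ 2 - 2 * w * H)) := by ring
  linarith

theorem G : specG := by
  intro n t m N Cb M L p i₀ ε h v hinj hp hYN hi₀ hh hv htL hM hM2
  set P : Graph m → Fin n → ℤ × ℤ := fun x i => pert h (addTop v (topOf ε x)) M (p i) with hP
  have hpY : ∀ i, (p i).2 ≤ Ytop m := fun i => (hp i).2
  have hP1 : ∀ x i, (P x i).1 = (pert h v M (p i)).1 := fun x i => by
    rw [hP]; simp only [pert_top]
  have hP2 : ∀ x i, (P x i).2 = (pert h v M (p i)).2 + tau ε x (p i) := fun x i => by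
    rw [hP]; simp only [pert_top]
  have hB1 : ∀ i, |(pert h v M (p i)).1 - M * (p i).1| ≤ N * Cb := by
    intro i
    have : (pert h v M (p i)).1 - M * (p i).1 =
        ∑ k ∈ Finset.range (p i).1, h k (p i).2 := by
      simp only [pert]; ring
    rw [this]
    exact sum_bd _ _ _ _ (fun j => hh _ _) (hp i).1
  have hB2 : ∀ i, |(pert h v M (p i)).2 - M * (p i).2| ≤ N * Cb := by
    intro i
    have : (pert h v M (p i)).2 - M * (p i).2 =
        ∑ k ∈ Finset.range (p i).2, v (p i).1 k := by
      simp only [pert]; ring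
    rw [this]
    exact sum_bd _ _ _ _ (fun j => hv _ _) ((hp i).2.trans hYN)
  have hMz : 1000 * ((N : ℤ) + 1) * (Cb + 1) ≤ M := by exact_mod_cast hM
  have hM2z : 1000 * ((L : ℤ) + 1) * (N + 1) * (Cb + 1) ≤ (M : ℤ) ^ 2 := by exact_mod_cast hM2
  have hNC : 0 ≤ (N : ℤ) * Cb := by positivity
  have hNC2 : 1000 * ((N : ℤ) * Cb) + 1000 ≤ M := by nlinarith [Nat.zero_le N, Nat.zero_le Cb]
  have hM0 : (0 : ℤ) < M := by linarith
  -- vertical differences
  have hvert : ∀ i j, (p i).2 = Ytop m → (p j).2 < Ytop m →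
      1 ≤ (pert h v M (p i)).2 - (pert h v M (p j)).2 := by
    intro i j hi hj
    have h1 := (abs_le.1 (hB2 i)).1
    have h2 := (abs_le.1 (hB2 j)).2
    have h3 : ((p j).2 : ℤ) + 1 ≤ (p i).2 := by
      rw [hi]; exact_mod_cast hj
    have h4 : (M : ℤ) * ((p j).2 + 1) ≤ M * (p i).2 := mul_le_mul_of_nonneg_left h3 hM0.le
    linarith
  have hcl : ∀ a b : Fin (n + t), Cl L P i₀ a b := by
    have hLz : (t : ℤ) ≤ L := by exact_mod_cast htL
    have hL0 : (0 : ℤ) ≤ L := by positivity
    -- case: a point below the line or `i` on the line, `j` below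
    have c1 : ∀ i j, (p j).2 < Ytop m → Cl L P i₀ (Fin.castAdd t i) (Fin.castAdd t j) := by
      intro i j hj
      refine ⟨fun x => dst (padded L t i₀ (P x) (Fin.castAdd t i))
        (padded L t i₀ (P x) (Fin.castAdd t j)), ?_, fun x => ⟨le_rfl, ?_⟩⟩
      · have hs := simple_tau ε (p i) (hpY i) (fun τ : ℤ =>
          dst ((L : ℤ) * (pert h v M (p i)).1, (L : ℤ) * ((pert h v M (p i)).2 + τ))
            ((L : ℤ) * (pert h v M (p j)).1, (L : ℤ) * (pert h v M (p j)).2)) (by
          intro hi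
          apply dst_mono
          have h1 := hvert i j hi hj
          set V := (pert h v M (p i)).2 - (pert h v M (p j)).2 with hV
          have e1 : (L : ℤ) * ((pert h v M (p i)).2 + 0) - L * (pert h v M (p j)).2 = L * V := by
            rw [hV]; ring
          have e2 : (L : ℤ) * ((pert h v M (p i)).2 + 1) - L * (pert h v M (p j)).2 =
              L * (V + 1) := by
            rw [hV]; ring
          simp only [e1, e2]
          have : (L * V) ^ 2 ≤ (L * (V + 1)) ^ 2 := by
            apply pow_le_pow_left₀ (by positivity)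
            exact mul_le_mul_of_nonneg_left (by linarith) hL0
          linarith)
        have e : (fun x => dst (padded L t i₀ (P x) (Fin.castAdd t i))
            (padded L t i₀ (P x) (Fin.castAdd t j))) = fun x =>
            dst ((L : ℤ) * (pert h v M (p i)).1, (L : ℤ) * ((pert h v M (p i)).2 + tau ε x (p i)))
            ((L : ℤ) * (pert h v M (p j)).1, (L : ℤ) * (pert h v M (p j)).2) := by
          funext x
          rw [pad_left, pad_left, hP1, hP1, hP2, hP2, tau_lt ε x (p j) hj, add_zero]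
        rw [e]
        exact hs
      · beta_reduce
        rw [pad_left, pad_left, pad_left, pad_left]
        apply dst_mono
        have := scale_le L 0 ((P x i).1 - (P x j).1) ((P x i).2 - (P x j).2) le_rfl hL0
        refine (le_of_eq ?_).trans (this.trans (le_of_eq ?_))
        · simp only
          ring
        · push_cast
          ring
    have c2 : ∀ i (j : Fin t), Cl L P i₀ (Fin.castAdd t i) (Fin.natAdd n j) := by
      intro i j
      have hj : ((j : ℕ) : ℤ) + 1 ≤ L := by
        have : (j : ℕ) + 1 ≤ t := j.2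
        have h2 : (((j : ℕ) + 1 : ℕ) : ℤ) ≤ t := by exact_mod_cast this
        push_cast at h2
        linarith
      refine ⟨fun x => dst (padded L t i₀ (P x) (Fin.castAdd t i))
        (padded L t i₀ (P x) (Fin.natAdd n j)), ?_, fun x => ⟨le_rfl, ?_⟩⟩
      · have hs := simple_tau ε (p i) (hpY i) (fun τ : ℤ =>
          dst ((L : ℤ) * (pert h v M (p i)).1, (L : ℤ) * ((pert h v M (p i)).2 + τ))
            ((L : ℤ) * (pert h v M (p i₀)).1 + (((j : ℕ) : ℤ) + 1),
              (L : ℤ) * (pert h v M (p i₀)).2)) (by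
          intro hi
          apply dst_mono
          have h1 := hvert i i₀ hi hi₀
          set V := (pert h v M (p i)).2 - (pert h v M (p i₀)).2 with hV
          have e1 : (L : ℤ) * ((pert h v M (p i)).2 + 0) - L * (pert h v M (p i₀)).2 = L * V := by
            rw [hV]; ring
          have e2 : (L : ℤ) * ((pert h v M (p i)).2 + 1) - L * (pert h v M (p i₀)).2 =
              L * (V + 1) := by
            rw [hV]; ring
          simp only [e1, e2]
          have : (L * V) ^ 2 ≤ (L * (V + 1)) ^ 2 := by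
            apply pow_le_pow_left₀ (by positivity)
            exact mul_le_mul_of_nonneg_left (by linarith) hL0
          linarith)
        have e : (fun x => dst (padded L t i₀ (P x) (Fin.castAdd t i))
            (padded L t i₀ (P x) (Fin.natAdd n j))) = fun x =>
            dst ((L : ℤ) * (pert h v M (p i)).1, (L : ℤ) * ((pert h v M (p i)).2 + tau ε x (p i)))
            ((L : ℤ) * (pert h v M (p i₀)).1 + (((j : ℕ) : ℤ) + 1),
              (L : ℤ) * (pert h v M (p i₀)).2) := by
          funext x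
          rw [pad_left, pad_right, hP1, hP1, hP2, hP2, tau_lt ε x (p i₀) hi₀, add_zero]
        rw [e]
        exact hs
      · beta_reduce
        rw [pad_left, pad_left, pad_right, pad_right]
        apply dst_mono
        have := scale_le L (((j : ℕ) : ℤ) + 1) ((P x i).1 - (P x i₀).1)
          ((P x i).2 - (P x i₀).2) (by positivity) hj
        refine (le_of_eq ?_).trans (this.trans (le_of_eq ?_))
        · simp only
          ring
        · push_cast
          ring
    have c3 : ∀ (j k : Fin t), Cl L P i₀ (Fin.natAdd n j) (Fin.natAdd n k) := by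
      intro j k
      refine ⟨fun _ => dst (((j : ℕ) : ℤ), 0) (((k : ℕ) : ℤ), 0), Or.inl ⟨_, fun x => rfl⟩,
        fun x => ⟨?_, ?_⟩⟩
      · rw [pad_right, pad_right]
        apply dst_mono
        simp only
        apply le_of_eq
        ring
      · rw [pad_right, pad_right]
        apply dst_mono
        simp only
        apply le_of_eq
        push_cast
        ring
    have c4 : ∀ i j, i ≠ j → (p i).2 = Ytop m → (p j).2 = Ytop m →
        Cl L P i₀ (Fin.castAdd t i) (Fin.castAdd t j) := by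
      intro i j hij hi hj
      set H := (pert h v M (p i)).1 - (pert h v M (p j)).1 with hH
      set V := (pert h v M (p i)).2 - (pert h v M (p j)).2 with hV
      have hxne : (p i).1 ≠ (p j).1 := by
        intro h'
        exact hij (hinj (Prod.ext h' (hi.trans hj.symm)))
      have h1 := abs_le.1 (hB1 i)
      have h2 := abs_le.1 (hB1 j)
      have h3 := abs_le.1 (hB2 i)
      have h4 := abs_le.1 (hB2 j)
      rw [hi] at h3
      rw [hj] at h4
      have hVb : |V| ≤ 2 * (N * Cb) := by
        rw [abs_le]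
        constructor <;> linarith
      have hHb : (M : ℤ) ^ 2 ≤ 4 * H ^ 2 := by
        have hH' : (M : ℤ) ≤ 2 * |H| := by
          rcases lt_or_gt_of_ne hxne with hlt | hlt
          · have h5 : ((p i).1 : ℤ) + 1 ≤ (p j).1 := by exact_mod_cast hlt
            have h6 : (M : ℤ) * ((p i).1 + 1) ≤ M * (p j).1 :=
              mul_le_mul_of_nonneg_left h5 hM0.le
            have h7 : -H ≤ |H| := neg_le_abs H
            linarith
          · have h5 : ((p j).1 : ℤ) + 1 ≤ (p i).1 := by exact_mod_cast hlt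
            have h6 : (M : ℤ) * ((p j).1 + 1) ≤ M * (p i).1 :=
              mul_le_mul_of_nonneg_left h5 hM0.le
            have h7 : H ≤ |H| := le_abs_self H
            linarith
        have h8 : (M : ℤ) ^ 2 ≤ (2 * |H|) ^ 2 := pow_le_pow_left₀ hM0.le hH' 2
        rw [mul_pow, sq_abs] at h8
        linarith
      refine ⟨fun _ => dst ((L : ℤ) * H, (L : ℤ) * (|V| + 1)) (0, 0), Or.inl ⟨_, fun x => rfl⟩,
        fun x => ?_⟩
      have hti := tau_mem ε x (p i) (hpY i)
      have htj := tau_mem ε x (p j) (hpY j)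
      set s := tau ε x (p i) - tau ε x (p j) with hs
      have hs1 : -1 ≤ s ∧ s ≤ 1 := by
        rcases hti with a | a <;> rcases htj with b | b <;> rw [hs, a, b] <;> norm_num
      have e1 : (P x i).1 - (P x j).1 = H := by rw [hP1, hP1]
      have e2 : (P x i).2 - (P x j).2 = V + s := by rw [hP2, hP2, hV, hs]; ring
      have hVs : (V + s) ^ 2 ≤ (|V| + 1) ^ 2 := by
        apply sq_le_sq'
        · linarith [neg_abs_le V, hs1.1]
        · linarith [le_abs_self V, hs1.2]
      have hVs2 : (|V| + 1) ^ 2 ≤ (V + s) ^ 2 + (4 * |V| + 1) := by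
        have h5 : (V + s) ^ 2 = |V| ^ 2 + 2 * (s * V) + s ^ 2 := by rw [sq_abs]; ring
        have h6 : -|V| ≤ s * V := by
          have h7 : |s * V| ≤ |V| := by
            rw [abs_mul]
            have : |s| ≤ 1 := abs_le.2 hs1
            nlinarith [abs_nonneg V]
          linarith [neg_abs_le (s * V)]
        nlinarith [sq_nonneg s]
      constructor
      · rw [pad_left, pad_left]
        apply dst_mono
        have a1 : (L : ℤ) * (P x i).1 - L * (P x j).1 = L * H := by rw [← e1]; ring
        have a2 : (L : ℤ) * (P x i).2 - L * (P x j).2 = L * (V + s) := by rw [← e2]; ring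
        simp only [a1, a2, sub_zero, mul_pow]
        have := mul_le_mul_of_nonneg_left hVs (sq_nonneg (L : ℤ))
        linarith
      · rw [pad_left, pad_left]
        apply dst_mono
        have a1 : ((L + 1 : ℕ) : ℤ) * (P x i).1 - ((L + 1 : ℕ) : ℤ) * (P x j).1 = (L + 1) * H := by
          rw [← e1]; push_cast; ring
        have a2 : ((L + 1 : ℕ) : ℤ) * (P x i).2 - ((L + 1 : ℕ) : ℤ) * (P x j).2 =
            (L + 1) * (V + s) := by
          rw [← e2]; push_cast; ring
        simp only [a1, a2, sub_zero, mul_pow]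
        -- L^2 (H^2 + (|V|+1)^2) ≤ (L+1)^2 (H^2 + (V+s)^2)
        have b1 : (L : ℤ) ^ 2 * (|V| + 1) ^ 2 ≤ L ^ 2 * ((V + s) ^ 2 + (4 * |V| + 1)) :=
          mul_le_mul_of_nonneg_left hVs2 (sq_nonneg _)
        have b2 : (L : ℤ) * (4 * |V| + 1) ≤ 2 * H ^ 2 := by
          have b3 : 4 * |V| + 1 ≤ 8 * (N * Cb) + 1 := by linarith
          have b4 : (L : ℤ) * (4 * |V| + 1) ≤ L * (8 * (N * Cb) + 1) :=
            mul_le_mul_of_nonneg_left b3 hL0
          have b5 : 2 * ((L : ℤ) * (8 * (N * Cb) + 1)) ≤ M ^ 2 := by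
            have b6 : 8 * ((N : ℤ) * Cb) + 1 ≤ 8 * ((N + 1) * (Cb + 1)) := by
              have : (0 : ℤ) ≤ N + Cb := by positivity
              nlinarith
            have b7 : (L : ℤ) * (8 * (N * Cb) + 1) ≤ (L + 1) * (8 * ((N + 1) * (Cb + 1))) :=
              mul_le_mul (by linarith) b6 (by positivity) (by positivity)
            have b8 : (0 : ℤ) ≤ (L + 1) * ((N + 1) * (Cb + 1)) := by positivity
            have b9 : 1000 * ((L : ℤ) + 1) * (N + 1) * (Cb + 1) =
                1000 * ((L + 1) * ((N + 1) * (Cb + 1))) := by ring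
            have b10 : ((L : ℤ) + 1) * (8 * ((N + 1) * (Cb + 1))) =
                8 * ((L + 1) * ((N + 1) * (Cb + 1))) := by ring
            linarith
          linarith
        have b3 : (L : ℤ) ^ 2 * (4 * |V| + 1) ≤ 2 * L * H ^ 2 := by
          have := mul_le_mul_of_nonneg_left b2 hL0
          have e3 : (L : ℤ) ^ 2 * (4 * |V| + 1) = L * (L * (4 * |V| + 1)) := by ring
          have e4 : 2 * (L : ℤ) * H ^ 2 = L * (2 * H ^ 2) := by ring
          rw [e3, e4]
          exact this
        have b4 : 0 ≤ (2 * (L : ℤ) + 1) * (V + s) ^ 2 := by positivity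
        have b5 : 0 ≤ H ^ 2 := sq_nonneg H
        have e5 : ((L : ℤ) + 1) ^ 2 * H ^ 2 + (L + 1) ^ 2 * (V + s) ^ 2 =
            L ^ 2 * H ^ 2 + L ^ 2 * (V + s) ^ 2 + 2 * L * H ^ 2 + H ^ 2 +
              (2 * L + 1) * (V + s) ^ 2 := by ring
        have e6 : (L : ℤ) ^ 2 * ((V + s) ^ 2 + (4 * |V| + 1)) =
            L ^ 2 * (V + s) ^ 2 + L ^ 2 * (4 * |V| + 1) := by ring
        linarith
    have c5 : ∀ i, Cl L P i₀ (Fin.castAdd t i) (Fin.castAdd t i) := by
      intro i
      refine ⟨fun _ => 0, Or.inl ⟨0, fun x => rfl⟩, fun x => ⟨?_, ?_⟩⟩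
      · apply le_of_eq
        unfold dst
        simp
      · exact Real.sqrt_nonneg _
    intro a b
    refine Fin.addCases (fun i => ?_) (fun i => ?_) a <;>
      refine Fin.addCases (fun j => ?_) (fun j => ?_) b
    · rcases eq_or_ne i j with rfl | hij
      · exact c5 i
      rcases Nat.lt_or_ge (p j).2 (Ytop m) with hj | hj
      · exact c1 i j hj
      rcases Nat.lt_or_ge (p i).2 (Ytop m) with hi | hi
      · exact (c1 j i hi).symm
      exact c4 i j hij (le_antisymm (hpY i) hi) (le_antisymm (hpY j) hj)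
    · exact c2 i j
    · exact (c2 j i).symm
    · exact c3 i j
  choose D hD1 hD2 using hcl
  exact ⟨fun e => D e.1 e.2, fun e => hD1 e.1 e.2, fun e x => hD2 e.1 e.2 x⟩

end Pool.Agent.Helper34.MR
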